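import Pool.Agent.Run7.h588.BR.Seq

/-! Almost dense graphs with few 4-cycles and bounded normalised counts of every fixed graph can have
any prescribed limiting normalised triangle count, `0` included.

The construction: let `X_1, ..., X_n` be independent uniform elements of `{1,-1}^M` and join `i` and `j`
with probability `2^(-M) * ∏_l (1 + z X_i(l) X_j(l))`, with `M z^4 → 0` and `M z^3 → log θ`. -/

open Filter Topology

/-- For every `θ ≥ 0` there are `p(n) = n^{-o(1)}` and graphs `G_n` on `n` vertices satisfying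
conditions 1-3 of the problem with `s_p(K_3, G_n) → θ`. -/
theorem Pool.Agent.Results.MP_e47ff0_co.AnyTriangleDensity.result (θ : ℝ) (hθ : 0 ≤ θ) :
    ∃ (p : ℕ → ℝ) (G : ∀ n : ℕ, SimpleGraph (Fin n)),
      (∀ n, 0 < p n ∧ p n ≤ 1) ∧
      Tendsto (fun n : ℕ => Real.log (1 / p n) / Real.log n) atTop (𝓝 0) ∧
      (∀ n, ((G n).edgeSet.ncard : ℝ) = p n * (n.choose 2 : ℝ)) ∧
      Tendsto (fun n => Run7.h588.BR.dens (p n) (SimpleGraph.cycleGraph 4) (G n)) atTop (𝓝 1) ∧
      (∀ (k : ℕ) (F : SimpleGraph (Fin k)), ∃ C : ℝ, ∀ n, Run7.h588.BR.dens (p n) F (G n) ≤ C) ∧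
      Tendsto (fun n => Run7.h588.BR.dens (p n) (⊤ : SimpleGraph (Fin 3)) (G n)) atTop (𝓝 θ) :=
  Run7.h588.BR.final θ hθ
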